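import Pool.Agent.Lead.Fat3

namespace Pool.Agent.Results.MP_b1ca72_ag.Counterexample

open Pool.Agent.Lead.Fat

theorem result :
    ∃ (r d t : ℕ) (m : Fin r → ℕ), 1 ≤ d ∧ 1 ≤ t ∧
      ((d + 2).choose 2 : ℤ) - ∑ i, ((m i + 1).choose 2 : ℤ) ≤ max (((t + 1).choose 2 : ℤ) - 2) 0 ∧
      ∀ S : ℕ → MvPolynomial (Fin r × Fin 3) ℂ, (∀ k, S k ≠ 0) →
        ∃ P : Fin r → Fin 3 → ℂ,
          (∀ k, MvPolynomial.eval (fun ij : Fin r × Fin 3 => P ij.1 ij.2) (S k) ≠ 0) ∧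
          (∀ i, P i ≠ 0) ∧ (∀ i j, i ≠ j → ∀ c : ℂ, P j ≠ c • P i) ∧
          ∃ F : MvPolynomial (Fin 3) ℂ, F.IsHomogeneous d ∧ Squarefree F ∧
            (∀ i, HasMult F (P i) (m i)) ∧
            ∃ x : Fin 3 → ℂ, x ≠ 0 ∧ (∀ i, ∀ c : ℂ, x ≠ c • P i) ∧ HasMult F x t := by
  refine ⟨11, 9, 3, ![3, 3, 3, 3, 3, 3, 3, 3, 1, 1, 1], by norm_num, by norm_num, ?_, main⟩
  decide

end Pool.Agent.Results.MP_b1ca72_ag.Counterexample
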